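import Pool.Agent.Lib.Q903cf7.Main

/-!
# Strong universal pattern generators exist

Cells carry a content (two ports and a cell symbol, read as a register of 22 bits) and a carrier
slot (empty, or one bit). One step of the automaton: two machine steps (a permutation of the
contents of cells away from carriers, then swaps of ports across edges away from carriers and not
at the right side of a wall), an emission step (a wall cell displaying a bit toggles its carrier
slot), a shift of the carriers to the right, and a push of every carrier bit through the register
of its cell.

A source is a wall cell without carriers to its left; the half line left of it is autonomous. The
control lemma says that every pattern to the right of a source can be forced by an input word of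
linear length, whatever was there before: a long word of bits fills the medium with a prescribed
all-carrier state, and running time backwards from the wanted pattern leads to such a state. The
machine left of the source is a base 3 counter; it emits all its values and moves the source to
the left once in 2048 overflows.
-/

namespace Pool.Agent.Results.MP_903cf7_lc.StrongGenerator

open Pool.Agent.Lib.Q903cf7

/-- There is a reversible one-dimensional cellular automaton `F` over a state set with `3 * 2 ^ 22`
elements, with quiescent distinguished state `o`, and a finite configuration `x`, such that every
word appears at every position in the orbit of `x`. -/
theorem result : ∃ (S : Type) (_ : Fintype S) (o : S) (F F' : (ℤ → S) → (ℤ → S)) (x : ℤ → S),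
    Fintype.card S = 3 * 2 ^ 22 ∧
    IsCA F ∧ IsCA F' ∧ Function.LeftInverse F' F ∧ Function.RightInverse F' F ∧
    F (fun _ => o) = (fun _ => o) ∧ IsFin o x ∧ StrongUPG F x :=
  main

end Pool.Agent.Results.MP_903cf7_lc.StrongGenerator
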